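import Pool.Agent.Helper84.PH.Defs

/-!
# Pieces EX2c and EX2d for `MP_398e1f_an`
-/

open scoped Manifold ContDiff Topology
open Set Filter

noncomputable section

namespace HolPH

/-- EX2c.  Topological step. -/
theorem ex2c {X M M' T' : Type*} [TopologicalSpace X] [PreconnectedSpace X] [TopologicalSpace M]
    [T2Space M] [TopologicalSpace M'] [CompactSpace M']
    (q : X × C2 → M) (hq : Continuous q) (hqs : Function.Surjective q)
    (p : M' → M) (hp : Continuous p) (hfin : ∀ x, (p ⁻¹' {x}).Finite)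
    (f : M → M) (g : M' → M') (n : ℕ) (hpg : ∀ y, p (g y) = f^[n] (p y))
    (hf : ∀ (m : ℕ) (ξ : X) (x : C2), ∃ ξ' : X, f^[m] (q (ξ', x)) = q (ξ, x))
    (P : M' → T') (B : T' → T') (hPg : ∀ y, P (g y) = B (P y))
    (hPc : ∀ c, IsClosed {y | P y = c})
    (hloc : ∀ (y : M') (ξ : X) (x : C2), q (ξ, x) = p y →
      ∀ᶠ ξ' in 𝓝 ξ, ∃ y', p y' = q (ξ', x) ∧ P y' = P y) (y : M') :
    {c | ∃ j : ℕ, c = B^[j] (P y)}.Finite := by
  obtain ⟨⟨ξ₀, x₀⟩, h0⟩ := hqs (p y)
  set U : Set X := {ξ | ∃ y', p y' = q (ξ, x₀) ∧ P y' = P y} with hU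
  have hclosed : IsClosed U := by
    have h1 : IsClosed (p '' {y' | P y' = P y}) := ((hPc (P y)).isCompact.image hp).isClosed
    have h2 : U = (fun ξ : X => q (ξ, x₀)) ⁻¹' (p '' {y' | P y' = P y}) := by
      ext ξ
      constructor
      · rintro ⟨y', hy', hy''⟩
        exact ⟨y', hy'', hy'⟩
      · rintro ⟨y', hy', hy''⟩
        exact ⟨y', hy'', hy'⟩
    rw [h2]
    exact h1.preimage (hq.comp (by fun_prop))
  have hopen : IsOpen U := by
    rw [isOpen_iff_mem_nhds]
    rintro ξ ⟨y', hy', hy''⟩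
    filter_upwards [hloc y' ξ x₀ hy'.symm] with ξ' ⟨z, hz, hz'⟩
    exact ⟨z, hz, hz'.trans hy''⟩
  have huniv : U = Set.univ :=
    IsClopen.eq_univ ⟨hclosed, hopen⟩ ⟨ξ₀, y, h0.symm, rfl⟩
  have hiter : ∀ (j : ℕ) (z : M'), p (g^[j] z) = f^[n * j] (p z) := by
    intro j
    induction j with
    | zero => intro z; simp
    | succ j ih =>
      intro z
      rw [Function.iterate_succ_apply, ih, hpg, ← Function.iterate_add_apply]
      congr 1
  have hiterP : ∀ (j : ℕ) (z : M'), P (g^[j] z) = B^[j] (P z) := by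
    intro j
    induction j with
    | zero => intro z; simp
    | succ j ih =>
      intro z
      rw [Function.iterate_succ_apply, ih, hPg, ← Function.iterate_succ_apply]
  refine ((hfin (p y)).image P).subset ?_
  rintro c ⟨j, rfl⟩
  obtain ⟨ξ', hξ'⟩ := hf (n * j) ξ₀ x₀
  have hmem : ξ' ∈ U := by rw [huniv]; trivial
  obtain ⟨y', hy', hy''⟩ := hmem
  refine ⟨g^[j] y', ?_, ?_⟩
  · rw [Set.mem_preimage, Set.mem_singleton_iff, hiter, hy', hξ', h0]
  · rw [hiterP, hy'']

/-- No nonzero periodic vectors for a linear map of `ℂ²` without eigenvalues of modulus one. -/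
theorem eq_zero_of_pow_apply_eq (A : C2 →ₗ[ℂ] C2)
    (hA : ∀ μ : ℂ, Module.End.HasEigenvalue A μ → ‖μ‖ ≠ 1) (k : ℕ) (hk : 0 < k) (u : C2)
    (hu : (A ^ k) u = u) : u = 0 := by
  by_contra hne
  have h1 : Module.End.HasEigenvalue (A ^ k) 1 := by
    refine Module.End.hasEigenvalue_of_hasEigenvector (x := u) ⟨?_, hne⟩
    rw [Module.End.mem_eigenspace_iff, hu, one_smul]
  have h2 : (1 : ℂ) ∈ spectrum ℂ ((A : Module.End ℂ C2) ^ k) :=
    Module.End.hasEigenvalue_iff_mem_spectrum.1 h1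
  rw [spectrum.map_pow_of_pos _ hk] at h2
  obtain ⟨μ, hμ, hμk⟩ := h2
  have h3 : Module.End.HasEigenvalue A μ := Module.End.hasEigenvalue_iff_mem_spectrum.2 hμ
  refine hA μ h3 ?_
  have h4 : ‖μ‖ ^ k = 1 := by
    rw [← norm_pow]
    have : μ ^ k = 1 := hμk
    rw [this, norm_one]
  exact (pow_eq_one_iff_of_nonneg (norm_nonneg μ) hk.ne').1 h4

/-- EX2d.  Some point of the torus has an infinite orbit under a linear Anosov automorphism
(countability of the periodic points). -/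
theorem ex2d (Λ : Submodule ℤ C2) (hΛ : DiscreteTopology Λ) (hΛ' : IsZLattice ℝ Λ)
    (A : C2 ≃ₗ[ℂ] C2) (w : C2) (hAΛ : ∀ v, v ∈ Λ ↔ A v ∈ Λ)
    (hA : ∀ μ : ℂ, Module.End.HasEigenvalue (A : C2 →ₗ[ℂ] C2) μ → ‖μ‖ ≠ 1)
    (B : C2 ⧸ Λ → C2 ⧸ Λ)
    (hB : ∀ v : C2, B (Submodule.Quotient.mk v) = Submodule.Quotient.mk (A v + w)) :
    ∃ t : C2 ⧸ Λ, ¬ {c | ∃ j : ℕ, c = B^[j] t}.Finite := by
  classical
  have hcount : Countable Λ := TopologicalSpace.separableSpace_iff_countable.1 inferInstance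
  set T : C2 → C2 := fun v => A v + w with hT
  have hBT : ∀ (j : ℕ) (v : C2), B^[j] (Submodule.Quotient.mk v) =
      (Submodule.Quotient.mk (T^[j] v) : C2 ⧸ Λ) := by
    intro j
    induction j with
    | zero => intro v; rfl
    | succ j ih =>
      intro v
      rw [Function.iterate_succ_apply, hB, ih, Function.iterate_succ_apply]
  have hTsub : ∀ (j : ℕ) (v v' : C2), T^[j] v - T^[j] v' =
      ((A : C2 →ₗ[ℂ] C2) ^ j) (v - v') := by
    intro j
    induction j with
    | zero => intro v v'; simp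
    | succ j ih =>
      intro v v'
      rw [Function.iterate_succ_apply, Function.iterate_succ_apply, ih, pow_succ]
      simp [hT]
  have hinj : ∀ (j : ℕ), Function.Injective ((A : C2 →ₗ[ℂ] C2) ^ j) := by
    intro j
    induction j with
    | zero => intro a b h; simpa using h
    | succ j ih =>
      intro a b h
      rw [pow_succ] at h
      have h' : ((A : C2 →ₗ[ℂ] C2) ^ j) (A a) = ((A : C2 →ₗ[ℂ] C2) ^ j) (A b) := by simpa using h
      exact A.injective (ih h')
  have hsub : ∀ (i k : ℕ) (l : Λ), {v : C2 | T^[i] v - T^[i + (k + 1)] v = l}.Subsingleton := by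
    intro i k l v hv v' hv'
    have e1 : T^[i] v - T^[i] v' = T^[i + (k + 1)] v - T^[i + (k + 1)] v' := by
      have hv1 : T^[i] v - T^[i + (k + 1)] v = l := hv
      have hv2 : T^[i] v' - T^[i + (k + 1)] v' = l := hv'
      have : T^[i] v - T^[i + (k + 1)] v = T^[i] v' - T^[i + (k + 1)] v' := hv1.trans hv2.symm
      rw [sub_eq_sub_iff_add_eq_add] at this ⊢
      rw [add_comm (T^[i] v) _] at this
      rw [add_comm (T^[i] v) _, add_comm (T^[i + (k+1)] v) _]
      rw [← this]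
    rw [hTsub, hTsub, pow_add] at e1
    have e2 : v - v' = ((A : C2 →ₗ[ℂ] C2) ^ (k + 1)) (v - v') := hinj i (by simpa using e1)
    have e3 := eq_zero_of_pow_apply_eq (A : C2 →ₗ[ℂ] C2) hA (k + 1) (Nat.succ_pos k) _ e2.symm
    exact sub_eq_zero.1 e3
  set S : Set C2 := ⋃ (i : ℕ) (k : ℕ) (l : Λ), {v : C2 | T^[i] v - T^[i + (k + 1)] v = l} with hS
  have hScount : S.Countable := by
    refine Set.countable_iUnion fun i => Set.countable_iUnion fun k => Set.countable_iUnion
      fun l => (hsub i k l).countable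
  have hpre : ((fun z : ℂ => ((z, 0) : C2)) ⁻¹' S).Countable :=
    hScount.preimage (fun a b h => by simpa using h)
  obtain ⟨z, hz⟩ : ∃ z : ℂ, (z, (0 : ℂ)) ∉ S := by
    by_contra hcon
    push Not at hcon
    refine not_countable_complex ?_
    refine hpre.mono ?_
    intro z _
    exact hcon z
  refine ⟨Submodule.Quotient.mk (z, 0), ?_⟩
  intro hfin
  have hrange : (Set.range fun j : ℕ => B^[j] (Submodule.Quotient.mk (z, 0) : C2 ⧸ Λ)).Finite := by
    refine hfin.subset ?_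
    rintro c ⟨j, rfl⟩
    exact ⟨j, rfl⟩
  have hninj : ¬ Function.Injective fun j : ℕ => B^[j] (Submodule.Quotient.mk (z, 0) : C2 ⧸ Λ) :=
    fun hi => Set.infinite_range_of_injective hi hrange
  rw [Function.Injective] at hninj
  push Not at hninj
  obtain ⟨i, j, hij, hne⟩ := hninj
  have key : ∀ i j : ℕ, i < j → B^[i] (Submodule.Quotient.mk (z, 0) : C2 ⧸ Λ) =
      B^[j] (Submodule.Quotient.mk (z, 0) : C2 ⧸ Λ) → False := by
    intro i j hlt h
    obtain ⟨k, rfl⟩ : ∃ k, j = i + (k + 1) := ⟨j - i - 1, by omega⟩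
    rw [hBT, hBT, Submodule.Quotient.eq] at h
    refine hz ?_
    rw [hS]
    simp only [Set.mem_iUnion]
    exact ⟨i, k, ⟨_, h⟩, rfl⟩
  rcases lt_or_gt_of_ne hne with h | h
  · exact key i j h hij
  · exact key j i h hij.symm

end HolPH
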